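import Pool.Agent.H436.CW.Gen

/-!
# Mazur's question for fibre products of conic bundles (helper436)

`K` is a number field, and `L` is a complete nontrivially normed field with a homomorphism
`σ : K →+* L` of dense range, so `L` is the completion of `K` at a place, archimedean or not.

(2) Let `kᵢ ≠ 0` and `cᵢ` be elements of `K`, `1 ≤ i ≤ r`, and let `Fᵢⱼ` be a nonzero binary form of
degree `2 mᵢⱼ` over `K`, `1 ≤ j ≤ n`, possibly with multiple factors. Let `X` be the projective
variety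

  `xᵢ² - kᵢ yᵢ² = cᵢ Fᵢ₁(T₁) ⋯ Fᵢₙ(Tₙ) wᵢ²`, `1 ≤ i ≤ r`,

with `T₁, …, Tₙ ∈ ℙ¹`, the fibre product of `r` conic bundles over `(ℙ¹)ⁿ` (the coordinates
`(xᵢ : yᵢ : wᵢ)` are those of a projective bundle, `Tⱼ ↦ λⱼ Tⱼ` goes with
`(xᵢ : yᵢ : wᵢ) ↦ (∏ⱼ λⱼ^mᵢⱼ xᵢ : ∏ⱼ λⱼ^mᵢⱼ yᵢ : wᵢ)`). Suppose that for each `j` at most three of
the numbers `mᵢⱼ` are not zero and their sum is at most four. Then the ideals of the local Zariski
closures `Z_P` of the `K`-rational points take only finitely many values at the points `P` of `X`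
over `L`. For `n = r = 1` these are all the conic bundles
`x² - k y² = F(T) w²` over `ℙ¹` with constant `k` and a form `F` of degree at most eight: they have
up to eight degenerate fibres. For `n = 1` we also have the fibre products over `ℙ¹` of two such
bundles with forms of degrees `(4, 4)` or `(6, 2)` and of three with degrees `(4, 2, 2)`.

(1) In general, let `X` be the affine variety `xᵢ² - Aᵢ(z) yᵢ² = Bᵢ(z)`, `1 ≤ i ≤ r`, over the
affine space with coordinates `z₁, …, zₙ`, where for all `i`, `j` at least one of the nonzero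
polynomials `Aᵢ`, `Bᵢ` is constant in `zⱼ`, and the other one has degree `dᵢⱼ` in `zⱼ`. Suppose
that for each `j` at most three of the `dᵢⱼ` are not zero, and `∑ᵢ ⌈dᵢⱼ / 2⌉ ≤ 4`. Then outside a
divisor of the base, which does not depend on the place, all local Zariski closures are empty or
the whole of `X`.

Idea of the proof. The product of the norms of `w(z) = 1 + w₁ z + ⋯ + w₄ z⁴` with unknown
coefficients in `K(√k)` agrees with `F(z)` modulo `z⁷`, and the remaining two conditions give, after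
the choice of a parameter, a curve of genus one with two points at infinity whose difference has
infinite order; this is seen over some completion `ℚ_p` of `K`. Its rational points close to
infinity in `L` give rational points of `X` in fibres close to the given one, in the direction of
one coordinate of the base. So the rational points of the base over which there are rational points
of `X` are dense in the Zariski topology, locally in the topology of `L`.
-/

set_option autoImplicit false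

namespace Pool.Agent.Results.MP_f9f755_nt.FibreProductsOfConicBundles

open MvPolynomial

universe u v

/-- The value at `T` of the binary form `∑ F_l T₀^(d-l) T₁^l` of degree `d` with the coefficients
`F 0, …, F d`. -/
def form {R : Type*} [CommRing R] (d : ℕ) (F : ℕ → R) (T : Fin 2 → R) : R :=
  ∑ l ∈ Finset.range (d + 1), F l * T 0 ^ (d - l) * T 1 ^ l

/-- The indices of the coordinates: `(j, e)` with `e = 0, 1` for the two coordinates of `Tⱼ ∈ ℙ¹`,
and `(i, 0)`, `(i, 1)`, `(i, 2)` for `xᵢ`, `yᵢ`, `wᵢ`. -/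
abbrev Coord (n r : ℕ) : Type := (Fin n × Fin 2) ⊕ (Fin r × Fin 3)

/-- The vector of coordinates `y` gives a point: all `Tⱼ` and all `(xᵢ, yᵢ, wᵢ)` are not zero. -/
def Proper {R : Type*} [CommRing R] {n r : ℕ} (y : Coord n r → R) : Prop :=
  (∀ j, ∃ e, y (Sum.inl (j, e)) ≠ 0) ∧ ∀ i, ∃ e, y (Sum.inr (i, e)) ≠ 0

/-- The action of the torus: `Tⱼ ↦ aⱼ Tⱼ`, `xᵢ ↦ bᵢ ∏ⱼ aⱼ^mᵢⱼ xᵢ`, `yᵢ ↦ bᵢ ∏ⱼ aⱼ^mᵢⱼ yᵢ`,
`wᵢ ↦ bᵢ wᵢ`, where `a` and `b` are the two parts of `c`. -/
def scale {R : Type*} [CommRing R] {n r : ℕ} (m : Fin r → Fin n → ℕ) (c : Fin n ⊕ Fin r → R)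
    (y : Coord n r → R) : Coord n r → R :=
  Sum.elim (fun p => c (Sum.inl p.1) * y (Sum.inl p))
    (fun p => c (Sum.inr p.1) * (if p.2 = 2 then 1 else ∏ j, c (Sum.inl j) ^ m p.1 j) *
      y (Sum.inr p))

/-- The equations `xᵢ² - kᵢ yᵢ² = cᵢ ∏ⱼ Fᵢⱼ(Tⱼ) wᵢ²`, where `F i j` is a binary form of degree
`2 * m i j`. -/
def OnX {R : Type*} [CommRing R] {n r : ℕ} (m : Fin r → Fin n → ℕ) (k c : Fin r → R)
    (F : Fin r → Fin n → ℕ → R) (y : Coord n r → R) : Prop :=
  ∀ i, y (Sum.inr (i, 0)) ^ 2 - k i * y (Sum.inr (i, 1)) ^ 2 =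
    c i * (∏ j, form (2 * m i j) (F i j) fun e => y (Sum.inl (j, e))) * y (Sum.inr (i, 2)) ^ 2

/-- **Mazur's question for fibre products of conic bundles with at most eight degenerate fibres.**
-/
theorem result (K : Type u) [Field K] [NumberField K] :
    -- (1) general points
    (∀ (n r : ℕ) (A B : Fin r → MvPolynomial (Fin n) K), (∀ i, A i ≠ 0) → (∀ i, B i ≠ 0) →
      (∀ i j, (A i).degreeOf j = 0 ∨ (B i).degreeOf j = 0) →
      (∀ j, ∑ i, ((A i).degreeOf j + (B i).degreeOf j + 1) / 2 ≤ 4) →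
      (∀ j, (Finset.univ.filter fun i => (A i).degreeOf j + (B i).degreeOf j ≠ 0).card ≤ 3) →
      ∃ N : MvPolynomial (Fin n) K, N ≠ 0 ∧
      ∀ (L : Type v) [NontriviallyNormedField L] [CompleteSpace L] (σ : K →+* L), DenseRange σ →
      ∀ x : Fin n ⊕ (Fin r ⊕ Fin r) → L, eval₂ σ (fun j => x (Sum.inl j)) N ≠ 0 →
      ∀ J : Set (MvPolynomial (Fin n ⊕ (Fin r ⊕ Fin r)) K),
        -- the ideal of the local Zariski closure at `x`
        J = {f | ∃ U ∈ nhds x, ∀ (z : Fin n → K) (R S : Fin r → K),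
          (∀ i, R i ^ 2 - eval z (A i) * S i ^ 2 = eval z (B i)) →
          (fun s => σ (Sum.elim z (Sum.elim R S) s)) ∈ U →
          eval (Sum.elim z (Sum.elim R S)) f = 0} →
        J = Set.univ ∨ J = (Ideal.span (Set.range fun i : Fin r =>
          X (Sum.inr (Sum.inl i)) ^ 2 - rename Sum.inl (A i) * X (Sum.inr (Sum.inr i)) ^ 2 -
            rename Sum.inl (B i)) : Ideal (MvPolynomial (Fin n ⊕ (Fin r ⊕ Fin r)) K))) ∧
    -- (2) all points of the projective model
    (∀ (n r : ℕ) (m : Fin r → Fin n → ℕ) (k c : Fin r → K) (F : Fin r → Fin n → ℕ → K),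
      (∀ i, k i ≠ 0) → (∀ i j, ∃ l ≤ 2 * m i j, F i j l ≠ 0) → (∀ j, ∑ i, m i j ≤ 4) →
      (∀ j, (Finset.univ.filter fun i => m i j ≠ 0).card ≤ 3) →
      ∀ (L : Type v) [NontriviallyNormedField L] [CompleteSpace L] (σ : K →+* L), DenseRange σ →
      {J : Set (MvPolynomial (Coord n r) K) | ∃ x : Coord n r → L, Proper x ∧
        OnX m (fun i => σ (k i)) (fun i => σ (c i)) (fun i j l => σ (F i j l)) x ∧
        J = {f | ∃ U ∈ nhds x, ∀ y : Coord n r → K, Proper y → OnX m k c F y →
          (∃ a : Fin n ⊕ Fin r → L, (∀ s, a s ≠ 0) ∧ scale m a (fun s => σ (y s)) ∈ U) →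
          ∀ a : Fin n ⊕ Fin r → K, eval (scale m a y) f = 0}}.Finite) := by
  obtain ⟨p, hp, ⟨σp⟩⟩ := Pool.Agent.H436.CW.exists_emb K
  have h8 : ∀ (L : Type v) [NontriviallyNormedField L] [CompleteSpace L] (σ : K →+* L),
      DenseRange σ → Pool.Agent.H436.CW.W8 σ := by
    intro L _ _ σ hσ
    have : CharZero L := charZero_of_injective_ringHom σ.injective
    have : ProperSpace L := Pool.Agent.W279.Tri.properSpace_of_denseRange σ hσ
    exact fun g h9 h0 hΦ => Pool.Agent.H436.CW.w8 σp σ h9 h0 hΦ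
  refine ⟨?_, ?_⟩
  · intro n r A B hA hB hc h1 h2
    obtain ⟨N, hN, h⟩ := Pool.Agent.H436.CW.gen_main.{u, 0, v} hA hB hc
      (fun j => ⟨h1 j, h2 j⟩)
    refine ⟨N, hN, fun L _ _ σ hσ x hx J hJ => ?_⟩
    have : CharZero L := charZero_of_injective_ringHom σ.injective
    have e1 : J = {f : MvPolynomial (Fin n ⊕ (Fin r ⊕ Fin r)) K | ∃ U ∈ nhds x,
        ∀ y ∈ Pool.Agent.H436.CW.ptsK A B, (fun s => σ (y s)) ∈ U → eval y f = 0} := by
      rw [hJ]
      ext f
      constructor
      · rintro ⟨U, hU, hf⟩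
        refine ⟨U, hU, fun y hy hyU => ?_⟩
        have e2 : Sum.elim (fun j => y (Sum.inl j)) (Sum.elim (fun i => y (Sum.inr (Sum.inl i)))
            (fun i => y (Sum.inr (Sum.inr i)))) = y := by
          funext s
          rcases s with j | i | i <;> rfl
        have := hf _ (fun i => y (Sum.inr (Sum.inl i))) (fun i => y (Sum.inr (Sum.inr i))) hy
          (by rw [e2]; exact hyU)
        rwa [e2] at this
      · rintro ⟨U, hU, hf⟩
        exact ⟨U, hU, fun z R S hX hyU => hf _ hX hyU⟩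
    rw [e1]
    exact h L σ hσ (h8 L σ hσ) x hx
  · intro n r m k c F hk hF h1 h2 L _ _ σ hσ
    have : CharZero L := charZero_of_injective_ringHom σ.injective
    have : ProperSpace L := Pool.Agent.W279.Tri.properSpace_of_denseRange σ hσ
    exact Pool.Agent.H436.CW.compact_fin hσ (h8 L σ hσ) h1 h2 hk hF (c := c)

end Pool.Agent.Results.MP_f9f755_nt.FibreProductsOfConicBundles
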